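import Pool.Agent.W842.KF.Stm

/-!
# Two counting bounds
-/

set_option autoImplicit false

namespace Pool.Agent.W305.KF

open Finset Pool.Agent.Helper635.LLL Pool.Agent.W842.KF

theorem prod_ind {T : Type} [Fintype T] [DecidableEq T] (Z : Finset T) (a N : ℝ) :
    ∏ x : T, ((if x ∈ Z then a else 1) * N) = a ^ Z.card * N ^ Fintype.card T := by
  rw [Finset.prod_mul_distrib, Finset.prod_const, Finset.card_univ, Finset.prod_ite_mem,
    Finset.univ_inter, Finset.prod_const]

theorem t_mark1 : S_MARK1 := by
  classical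
  intro T _ N hN Z
  have hN0 : (N : ℝ) ≠ 0 := by positivity
  have h0 : 0 < N := hN
  have hsub : ev (fun m : T → Fin N => ∀ z ∈ Z, (m z : ℕ) ≠ 0) ⊆
      Fintype.piFinset (fun t => if t ∈ Z then (univ : Finset (Fin N)).erase ⟨0, h0⟩ else univ) := by
    intro m hm
    rw [mem_ev] at hm
    rw [Fintype.mem_piFinset]
    intro t
    split_ifs with h
    · rw [Finset.mem_erase]
      refine ⟨fun h1 => hm t h ?_, Finset.mem_univ _⟩
      rw [h1]
    · exact Finset.mem_univ _
  have h1 : (cnt (fun m : T → Fin N => ∀ z ∈ Z, (m z : ℕ) ≠ 0) : ℝ) ≤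
      ((Fintype.piFinset (fun t => if t ∈ Z then (univ : Finset (Fin N)).erase ⟨0, h0⟩
        else univ)).card : ℝ) := by
    exact_mod_cast Finset.card_le_card hsub
  refine h1.trans (le_of_eq ?_)
  rw [Fintype.card_piFinset, Fintype.card_fun, Fintype.card_fin]
  push_cast
  rw [← prod_ind]
  refine Finset.prod_congr rfl fun x _ => ?_
  by_cases hx : x ∈ Z
  · rw [if_pos hx, if_pos hx, Finset.card_erase_of_mem (Finset.mem_univ _), Finset.card_univ,
      Fintype.card_fin, Nat.cast_sub hN]
    field_simp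
    push_cast
    ring
  · rw [if_neg hx, if_neg hx, Finset.card_univ, Fintype.card_fin, one_mul]

theorem t_mark2 : S_MARK2 := by
  classical
  intro T _ N hN Z t
  have hN0 : (N : ℝ) ≠ 0 := by positivity
  have h0 : 0 < N := hN
  have hsub : ev (fun m : T → Fin N => t ≤ (Z.filter fun z => (m z : ℕ) = 0).card) ⊆
      (Z.powersetCard t).biUnion fun Y =>
        Fintype.piFinset (fun x => if x ∈ Y then {⟨0, h0⟩} else (univ : Finset (Fin N))) := by
    intro m hm
    rw [mem_ev] at hm
    obtain ⟨Y, hY, hc⟩ := Finset.exists_subset_card_eq hm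
    rw [Finset.mem_biUnion]
    refine ⟨Y, ?_, ?_⟩
    · rw [Finset.mem_powersetCard]
      exact ⟨hY.trans (Finset.filter_subset _ _), hc⟩
    · rw [Fintype.mem_piFinset]
      intro x
      split_ifs with h
      · rw [Finset.mem_singleton]
        have := (Finset.mem_filter.1 (hY h)).2
        exact Fin.ext this
      · exact Finset.mem_univ _
  have h1 : (cnt (fun m : T → Fin N => t ≤ (Z.filter fun z => (m z : ℕ) = 0).card) : ℝ) ≤
      ((∑ Y ∈ Z.powersetCard t, (Fintype.piFinset (fun x => if x ∈ Y then {⟨0, h0⟩}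
        else (univ : Finset (Fin N)))).card : ℕ) : ℝ) := by
    exact_mod_cast (Finset.card_le_card hsub).trans Finset.card_biUnion_le
  refine h1.trans ?_
  have h2 : ∀ Y ∈ Z.powersetCard t, (((Fintype.piFinset (fun x => if x ∈ Y then {⟨0, h0⟩}
        else (univ : Finset (Fin N)))).card : ℕ) : ℝ) =
      (1 / (N : ℝ)) ^ t * (N : ℝ) ^ Fintype.card T := by
    intro Y hY
    rw [← (Finset.mem_powersetCard.1 hY).2, ← prod_ind, Fintype.card_piFinset]
    push_cast
    refine Finset.prod_congr rfl fun x _ => ?_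
    by_cases hx : x ∈ Y
    · rw [if_pos hx, if_pos hx, Finset.card_singleton]
      field_simp
      norm_num
    · rw [if_neg hx, if_neg hx, Finset.card_univ, Fintype.card_fin, one_mul]
  rw [Nat.cast_sum, Finset.sum_congr rfl h2, Finset.sum_const, Finset.card_powersetCard,
    nsmul_eq_mul, Fintype.card_fun, Fintype.card_fin]
  push_cast
  rw [← mul_assoc]
  apply mul_le_mul_of_nonneg_right _ (by positivity)
  rw [div_pow, div_pow, one_pow, mul_one_div]
  apply div_le_div_of_nonneg_right _ (by positivity)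
  exact_mod_cast Nat.choose_le_pow Z.card t

end Pool.Agent.W305.KF
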